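import Mathlib

/-!
# Under CH, isomorphic embeddings of `C(ℕ*)` cannot be canonized along homeomorphisms

* `exists_good` : Parovičenko's theorem (a family of at most `ℵ₁` sets embeds, with all its finite
  Boolean combinations, into the subsets of `ℕ` modulo finite sets);
* `exists_surjection` : under CH, applied to the clopen subsets of `ℕ*` together with one open
  set below each clopen set, it gives a continuous surjection of `ℕ*` onto itself which maps no
  closed set homeomorphically onto a set `A*`;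
* `main` : composition with this surjection is an isometric multiplicative embedding of `C(ℕ*)`
  into itself which admits no canonization.
-/

open Filter Topology Set

namespace Pool.Agent.Lib.MP_f07f3c_an

/-- The set of the numbers which lie in all `f i`, `i ∈ s`, and in no `f i`, `i ∈ t`. -/
def cell {ι : Type*} {P : Type*} (f : ι → Set P) (s t : Finset ι) : Set P :=
  {n | (∀ i ∈ s, n ∈ f i) ∧ ∀ i ∈ t, n ∉ f i}

/-- `f` represents `v` on `J` modulo finite sets. -/
def Good {ι : Type*} {P : Type*} (v : ι → Set P) (f : ι → Set ℕ) (J : Set ι) : Prop :=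
  ∀ s t : Finset ι, (∀ i ∈ s, i ∈ J) → (∀ i ∈ t, i ∈ J) →
    ((cell v s t).Nonempty ↔ (cell f s t).Infinite)

theorem Good.mono {ι P : Type*} {v : ι → Set P} {f : ι → Set ℕ} {J J' : Set ι} (h : Good v f J)
    (hJ : J' ⊆ J) : Good v f J' :=
  fun s t hs ht => h s t (fun i hi => hJ (hs i hi)) (fun i hi => hJ (ht i hi))

theorem cell_union {ι P : Type*} [DecidableEq ι] (f : ι → Set P) (s t s' t' : Finset ι) :
    cell f (s ∪ s') (t ∪ t') = cell f s t ∩ cell f s' t' := by
  ext n
  simp only [cell, Finset.mem_union, Set.mem_ofPred_eq, Set.mem_inter_iff]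
  constructor
  · rintro ⟨h1, h2⟩
    exact ⟨⟨fun i hi => h1 i (Or.inl hi), fun i hi => h2 i (Or.inl hi)⟩,
      ⟨fun i hi => h1 i (Or.inr hi), fun i hi => h2 i (Or.inr hi)⟩⟩
  · rintro ⟨⟨h1, h2⟩, ⟨h3, h4⟩⟩
    exact ⟨fun i hi => hi.elim (h1 i) (h3 i), fun i hi => hi.elim (h2 i) (h4 i)⟩

/-- Key point of the extension lemma: a cell which has a point in `c`, minus finitely many cells
missing `c`, is infinite. -/
theorem infinite_diff {ι P : Type*} {v : ι → Set P} {f : ι → Set ℕ} {J : Set ι}
    (hf : Good v f J) (S T : ℕ → Finset ι) (hS : ∀ n, ∀ i ∈ S n, i ∈ J)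
    (hT : ∀ n, ∀ i ∈ T n, i ∈ J) (c : Set P) (k n : ℕ) (hk : (cell v (S k) (T k) ∩ c).Nonempty) :
    (cell f (S k) (T k) \ ⋃ i ∈ {i | i ≤ n ∧ Disjoint (cell v (S i) (T i)) c},
      cell f (S i) (T i)).Infinite := by
  classical
  obtain ⟨p, hpk, hpc⟩ := hk
  set L : Finset ι := (S k ∪ T k) ∪ (Finset.range (n + 1)).biUnion (fun i => S i ∪ T i) with hL
  have hLJ : ∀ i ∈ L, i ∈ J := by
    intro i hi
    rw [hL, Finset.mem_union, Finset.mem_union, Finset.mem_biUnion] at hi
    rcases hi with (hi | hi) | ⟨j, -, hi⟩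
    · exact hS _ _ hi
    · exact hT _ _ hi
    · rcases Finset.mem_union.1 hi with hi | hi
      · exact hS _ _ hi
      · exact hT _ _ hi
  set s := L.filter (fun i => p ∈ v i) with hs
  set t := L.filter (fun i => p ∉ v i) with ht
  have hinf : (cell f s t).Infinite := by
    refine (hf s t (fun i hi => hLJ i (Finset.mem_of_mem_filter i hi))
      (fun i hi => hLJ i (Finset.mem_of_mem_filter i hi))).1 ⟨p, ?_, ?_⟩
    · intro i hi; exact (Finset.mem_filter.1 hi).2
    · intro i hi; exact (Finset.mem_filter.1 hi).2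
  refine hinf.mono ?_
  intro m hm
  refine ⟨⟨fun i hi => hm.1 i ?_, fun i hi => hm.2 i ?_⟩, ?_⟩
  · rw [hs, Finset.mem_filter]
    exact ⟨Finset.mem_union_left _ (Finset.mem_union_left _ hi), hpk.1 i hi⟩
  · rw [ht, Finset.mem_filter]
    exact ⟨Finset.mem_union_left _ (Finset.mem_union_right _ hi), hpk.2 i hi⟩
  · intro hmem
    rw [Set.mem_iUnion₂] at hmem
    obtain ⟨i, ⟨hin, hdisj⟩, hmi⟩ := hmem
    have hpi : p ∉ cell v (S i) (T i) := fun h => Set.disjoint_left.1 hdisj h hpc
    apply hpi
    constructor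
    · intro j hj
      by_contra hpj
      have hjt : j ∈ t := by
        rw [ht, Finset.mem_filter]
        exact ⟨Finset.mem_union_right _ (Finset.mem_biUnion.2 ⟨i, Finset.mem_range.2 (by omega),
          Finset.mem_union_left _ hj⟩), hpj⟩
      exact hm.2 j hjt (hmi.1 j hj)
    · intro j hj hpj
      have hjs : j ∈ s := by
        rw [hs, Finset.mem_filter]
        exact ⟨Finset.mem_union_right _ (Finset.mem_biUnion.2 ⟨i, Finset.mem_range.2 (by omega),
          Finset.mem_union_right _ hj⟩), hpj⟩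
      exact hmi.2 j hj (hm.1 j hjs)

/-- The combinatorial core: countably many cells, a set `c`, and a set `y` of natural numbers
which relates to the cells of `f` as `c` relates to the cells of `v`. -/
theorem exists_splitting {ι P : Type*} {v : ι → Set P} {f : ι → Set ℕ} {J : Set ι}
    (hf : Good v f J) (S T : ℕ → Finset ι) (hS : ∀ n, ∀ i ∈ S n, i ∈ J)
    (hT : ∀ n, ∀ i ∈ T n, i ∈ J) (c : Set P) :
    ∃ y : Set ℕ, ∀ k, ((cell v (S k) (T k) ∩ c).Nonempty ↔ (cell f (S k) (T k) ∩ y).Infinite) ∧
      ((cell v (S k) (T k) ∩ cᶜ).Nonempty ↔ (cell f (S k) (T k) ∩ yᶜ).Infinite) := by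
  classical
  set V : ℕ → Set P := fun n => cell v (S n) (T n) with hV
  set W : ℕ → Set ℕ := fun n => cell f (S n) (T n) with hW
  have hPQ : ∀ i j, Disjoint (V i) cᶜ → Disjoint (V j) c → (W i ∩ W j).Finite := by
    intro i j hi hj
    rw [← Set.not_infinite, hW]
    simp only
    rw [← cell_union, ← hf _ _ (fun a ha => ?_) (fun a ha => ?_), cell_union]
    · rintro ⟨p, hpi, hpj⟩
      by_cases hpc : p ∈ c
      · exact Set.disjoint_left.1 hj hpj hpc
      · exact Set.disjoint_left.1 hi hpi hpc
    · rcases Finset.mem_union.1 ha with ha | ha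
      exacts [hS _ _ ha, hS _ _ ha]
    · rcases Finset.mem_union.1 ha with ha | ha
      exacts [hT _ _ ha, hT _ _ ha]
  -- requirements
  let R : ℕ → Set ℕ := fun n =>
    if Even (Nat.unpair n).2 then
      (if (V (Nat.unpair n).1 ∩ c).Nonempty then
        W (Nat.unpair n).1 \ ⋃ i ∈ {i | i ≤ n ∧ Disjoint (V i) c}, W i else Set.univ)
    else
      (if (V (Nat.unpair n).1 ∩ cᶜ).Nonempty then
        W (Nat.unpair n).1 \ ⋃ i ∈ {i | i ≤ n ∧ Disjoint (V i) cᶜ}, W i else Set.univ)
  have hR : ∀ n, (R n).Infinite := by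
    intro n
    simp only [R]
    split_ifs with h1 h2 h2
    · exact infinite_diff hf S T hS hT c _ n h2
    · exact Set.infinite_univ
    · exact infinite_diff hf S T hS hT cᶜ _ n h2
    · exact Set.infinite_univ
  obtain ⟨φ, hφ, hφR⟩ := Filter.extraction_forall_of_frequently
    (P := fun n m => m ∈ R n) (fun n => Nat.frequently_atTop_iff_infinite.2 (hR n))
  set Gr : Set ℕ := {m | ∃ n, m = φ n ∧ Even (Nat.unpair n).2 ∧ (V (Nat.unpair n).1 ∩ c).Nonempty}
    with hGr
  set Gs : Set ℕ := {m | ∃ n, m = φ n ∧ ¬ Even (Nat.unpair n).2 ∧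
    (V (Nat.unpair n).1 ∩ cᶜ).Nonempty} with hGs
  set Y0 : Set ℕ := {m | ∃ i, Disjoint (V i) cᶜ ∧ m ∈ W i ∧ ∀ j ≤ i, Disjoint (V j) c → m ∉ W j}
    with hY0
  have hrW : ∀ n, Even (Nat.unpair n).2 → (V (Nat.unpair n).1 ∩ c).Nonempty →
      φ n ∈ W (Nat.unpair n).1 ∧ ∀ i ≤ n, Disjoint (V i) c → φ n ∉ W i := by
    intro n h1 h2
    have h := hφR n
    simp only [R, if_pos h1, if_pos h2] at h
    refine ⟨h.1, fun i hi hd hmem => h.2 ?_⟩
    rw [Set.mem_iUnion₂]
    exact ⟨i, ⟨hi, hd⟩, hmem⟩
  have hsW : ∀ n, ¬ Even (Nat.unpair n).2 → (V (Nat.unpair n).1 ∩ cᶜ).Nonempty →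
      φ n ∈ W (Nat.unpair n).1 ∧ ∀ i ≤ n, Disjoint (V i) cᶜ → φ n ∉ W i := by
    intro n h1 h2
    have h := hφR n
    simp only [R, if_neg h1, if_pos h2] at h
    refine ⟨h.1, fun i hi hd hmem => h.2 ?_⟩
    rw [Set.mem_iUnion₂]
    exact ⟨i, ⟨hi, hd⟩, hmem⟩
  refine ⟨(Gr ∪ Y0) \ Gs, fun k => ⟨⟨?_, ?_⟩, ⟨?_, ?_⟩⟩⟩
  · -- (c)
    intro hne
    have hinj : Function.Injective (fun l : ℕ => φ (Nat.pair k (2 * l))) := by
      intro a b hab
      have := hφ.injective hab
      have h2 := congrArg Nat.unpair this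
      simp only [Nat.unpair_pair, Prod.mk.injEq, true_and] at h2
      omega
    refine (Set.infinite_range_of_injective hinj).mono ?_
    rintro m ⟨l, rfl⟩
    have he : Even (Nat.unpair (Nat.pair k (2 * l))).2 := by simp
    have hk : (V (Nat.unpair (Nat.pair k (2 * l))).1 ∩ c).Nonempty := by simpa using hne
    have h := hrW _ he hk
    refine ⟨by simpa using h.1, Or.inl ⟨_, rfl, he, hk⟩, ?_⟩
    rintro ⟨n, hn, hodd, -⟩
    have := hφ.injective hn
    rw [← this] at hodd
    exact hodd he
  · -- (a)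
    intro hinf
    by_contra hne
    have hd : Disjoint (V k) c := Set.disjoint_iff_inter_eq_empty.2 (Set.not_nonempty_iff_eq_empty.1 hne)
    refine hinf ?_
    refine (((Set.finite_Iio k).image φ).union
      ((Set.finite_Iio k).biUnion (t := fun i => {m | Disjoint (V i) cᶜ ∧ m ∈ W i ∩ W k}) ?_)).subset ?_
    · intro i _
      by_cases hi : Disjoint (V i) cᶜ
      · exact (hPQ i k hi hd).subset (fun m hm => hm.2)
      · exact Set.finite_empty.subset (fun m hm => (hi hm.1).elim)
    · rintro m ⟨hmk, hm | hm, -⟩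
      · obtain ⟨n, rfl, he, hnek⟩ := hm
        left
        refine ⟨n, ?_, rfl⟩
        by_contra hnk
        exact (hrW n he hnek).2 k (by simpa using hnk) hd hmk
      · obtain ⟨i, hi, hmi, hj⟩ := hm
        right
        refine Set.mem_biUnion (x := i) ?_ ⟨hi, hmi, hmk⟩
        by_contra hik
        exact hj k (by simpa using hik) hd hmk
  · -- (d)
    intro hne
    have hinj : Function.Injective (fun l : ℕ => φ (Nat.pair k (2 * l + 1))) := by
      intro a b hab
      have := hφ.injective hab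
      have h2 := congrArg Nat.unpair this
      simp only [Nat.unpair_pair, Prod.mk.injEq, true_and] at h2
      omega
    refine (Set.infinite_range_of_injective hinj).mono ?_
    rintro m ⟨l, rfl⟩
    have he : ¬ Even (Nat.unpair (Nat.pair k (2 * l + 1))).2 := by simp
    have hk : (V (Nat.unpair (Nat.pair k (2 * l + 1))).1 ∩ cᶜ).Nonempty := by simpa using hne
    have h := hsW _ he hk
    refine ⟨by simpa using h.1, ?_⟩
    rintro ⟨-, hno⟩
    exact hno ⟨_, rfl, he, hk⟩
  · -- (b)
    intro hinf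
    by_contra hne
    have hd : Disjoint (V k) cᶜ :=
      Set.disjoint_iff_inter_eq_empty.2 (Set.not_nonempty_iff_eq_empty.1 hne)
    refine hinf ?_
    refine (((Set.finite_Iio k).image φ).union
      ((Set.finite_Iic k).biUnion (t := fun j => {m | Disjoint (V j) c ∧ m ∈ W k ∩ W j}) ?_)).subset ?_
    · intro j _
      by_cases hj : Disjoint (V j) c
      · exact (hPQ k j hd hj).subset (fun m hm => hm.2)
      · exact Set.finite_empty.subset (fun m hm => (hj hm.1).elim)
    · rintro m ⟨hmk, hm⟩
      by_cases hGsm : m ∈ Gs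
      · obtain ⟨n, rfl, he, hnek⟩ := hGsm
        left
        refine ⟨n, ?_, rfl⟩
        by_contra hnk
        exact (hsW n he hnek).2 k (by simpa using hnk) hd hmk
      · have hmY : m ∉ Y0 := fun h => hm ⟨Or.inr h, hGsm⟩
        right
        have : ∃ j ≤ k, Disjoint (V j) c ∧ m ∈ W j := by
          by_contra hcon
          push Not at hcon
          exact hmY ⟨k, hd, hmk, fun j hj hjd => hcon j hj hjd⟩
        obtain ⟨j, hjk, hjd, hmj⟩ := this
        exact Set.mem_biUnion (x := j) hjk ⟨hjd, hmk, hmj⟩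

/-- One-step extension. -/
theorem extend {ι P : Type*} [DecidableEq ι] {v : ι → Set P} {f : ι → Set ℕ} {J : Set ι}
    (hJ : J.Countable) (hf : Good v f J) (x : ι) (hx : x ∉ J) :
    ∃ y : Set ℕ, Good v (Function.update f x y) (insert x J) := by
  classical
  have : Countable J := hJ.to_subtype
  obtain ⟨q, hq⟩ := exists_surjective_nat (Finset J × Finset J)
  have hmem : ∀ (u : Finset J), ∀ i ∈ u.map (Function.Embedding.subtype _), i ∈ J := by
    intro u i hi
    rw [Finset.mem_map] at hi
    obtain ⟨a, -, rfl⟩ := hi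
    exact a.2
  obtain ⟨y, hy⟩ := exists_splitting hf (fun n => (q n).1.map (Function.Embedding.subtype _))
    (fun n => (q n).2.map (Function.Embedding.subtype _)) (fun n => hmem _) (fun n => hmem _) (v x)
  -- for all s t in J
  have key : ∀ s t : Finset ι, (∀ i ∈ s, i ∈ J) → (∀ i ∈ t, i ∈ J) →
      (((cell v s t ∩ v x).Nonempty ↔ (cell f s t ∩ y).Infinite) ∧
      ((cell v s t ∩ (v x)ᶜ).Nonempty ↔ (cell f s t ∩ yᶜ).Infinite)) := by
    intro s t hs ht
    obtain ⟨n, hn⟩ := hq (s.subtype (· ∈ J), t.subtype (· ∈ J))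
    have h1 : ((q n).1.map (Function.Embedding.subtype _)) = s := by
      rw [hn]
      exact Finset.subtype_map_of_mem hs
    have h2 : ((q n).2.map (Function.Embedding.subtype _)) = t := by
      rw [hn]
      exact Finset.subtype_map_of_mem ht
    have := hy n
    rw [h1, h2] at this
    exact this
  refine ⟨y, ?_⟩
  intro s t hs ht
  set s' := s.erase x with hs'
  set t' := t.erase x with ht'
  have hs'J : ∀ i ∈ s', i ∈ J := fun i hi =>
    (hs i (Finset.mem_of_mem_erase hi)).resolve_left (Finset.ne_of_mem_erase hi)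
  have ht'J : ∀ i ∈ t', i ∈ J := fun i hi =>
    (ht i (Finset.mem_of_mem_erase hi)).resolve_left (Finset.ne_of_mem_erase hi)
  have hupd : ∀ i ∈ J, Function.update f x y i = f i := fun i hi =>
    Function.update_of_ne (fun h => hx (by rw [← h]; exact hi)) _ _
  have hV : ∀ p, p ∈ cell v s t ↔ (p ∈ cell v s' t' ∧ (x ∈ s → p ∈ v x) ∧ (x ∈ t → p ∉ v x)) := by
    intro p
    constructor
    · rintro ⟨h1, h2⟩
      exact ⟨⟨fun i hi => h1 i (Finset.mem_of_mem_erase hi),
        fun i hi => h2 i (Finset.mem_of_mem_erase hi)⟩, h1 x, h2 x⟩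
    · rintro ⟨⟨h1, h2⟩, h3, h4⟩
      constructor
      · intro i hi
        by_cases hix : i = x
        · subst hix; exact h3 hi
        · exact h1 i (Finset.mem_erase.2 ⟨hix, hi⟩)
      · intro i hi
        by_cases hix : i = x
        · subst hix; exact h4 hi
        · exact h2 i (Finset.mem_erase.2 ⟨hix, hi⟩)
  have hW : ∀ m, m ∈ cell (Function.update f x y) s t ↔
      (m ∈ cell f s' t' ∧ (x ∈ s → m ∈ y) ∧ (x ∈ t → m ∉ y)) := by
    intro m
    constructor
    · rintro ⟨h1, h2⟩
      refine ⟨⟨fun i hi => ?_, fun i hi => ?_⟩, fun h => ?_, fun h => ?_⟩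
      · have := h1 i (Finset.mem_of_mem_erase hi); rwa [hupd i (hs'J i hi)] at this
      · have := h2 i (Finset.mem_of_mem_erase hi); rwa [hupd i (ht'J i hi)] at this
      · have := h1 x h; rwa [Function.update_self] at this
      · have := h2 x h; rwa [Function.update_self] at this
    · rintro ⟨⟨h1, h2⟩, h3, h4⟩
      constructor
      · intro i hi
        by_cases hix : i = x
        · subst hix; rw [Function.update_self]; exact h3 hi
        · have hi' : i ∈ s' := Finset.mem_erase.2 ⟨hix, hi⟩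
          rw [hupd i (hs'J i hi')]; exact h1 i hi'
      · intro i hi
        by_cases hix : i = x
        · subst hix; rw [Function.update_self]; exact h4 hi
        · have hi' : i ∈ t' := Finset.mem_erase.2 ⟨hix, hi⟩
          rw [hupd i (ht'J i hi')]; exact h2 i hi'
  by_cases hxs : x ∈ s <;> by_cases hxt : x ∈ t
  · have e1 : cell v s t = ∅ := by
      ext p; rw [hV]; simp only [hxs, hxt, true_imp_iff, Set.mem_empty_iff_false, iff_false]
      rintro ⟨-, h1, h2⟩; exact h2 h1
    have e2 : cell (Function.update f x y) s t = ∅ := by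
      ext p; rw [hW]; simp only [hxs, hxt, true_imp_iff, Set.mem_empty_iff_false, iff_false]
      rintro ⟨-, h1, h2⟩; exact h2 h1
    rw [e1, e2]
    simp
  · have e1 : cell v s t = cell v s' t' ∩ v x := by
      ext p; rw [hV]; simp [hxs, hxt]
    have e2 : cell (Function.update f x y) s t = cell f s' t' ∩ y := by
      ext p; rw [hW]; simp [hxs, hxt]
    rw [e1, e2]; exact (key s' t' hs'J ht'J).1
  · have e1 : cell v s t = cell v s' t' ∩ (v x)ᶜ := by
      ext p; rw [hV]; simp [hxs, hxt]
    have e2 : cell (Function.update f x y) s t = cell f s' t' ∩ yᶜ := by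
      ext p; rw [hW]; simp [hxs, hxt]
    rw [e1, e2]; exact (key s' t' hs'J ht'J).2
  · have e1 : cell v s t = cell v s' t' := by
      ext p; rw [hV]; simp [hxs, hxt]
    have e2 : cell (Function.update f x y) s t = cell f s' t' := by
      ext p; rw [hW]; simp [hxs, hxt]
    rw [e1, e2]; exact hf s' t' hs'J ht'J

/-- Parovičenko's theorem, for a well-ordered index set with countable initial segments. -/
theorem exists_good_of_wellOrder {ι P : Type*} [Nonempty P] [LinearOrder ι] [WellFoundedLT ι]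
    (hc : ∀ x : ι, (Set.Iio x).Countable) (v : ι → Set P) :
    ∃ f : ι → Set ℕ, Good v f Set.univ := by
  classical
  -- the recursion
  let step : ∀ x : ι, (∀ z, z < x → Set ℕ) → Set ℕ := fun x g =>
    if h : ∃ y : Set ℕ, Good v (Function.update (fun z => if hz : z < x then g z hz else ∅) x y)
      (insert x (Set.Iio x)) then h.choose else ∅
  let f : ι → Set ℕ := (wellFounded_lt (α := ι)).fix step
  have hfix : ∀ x, f x = step x (fun z _ => f z) := fun x => (wellFounded_lt (α := ι)).fix_eq step x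
  -- goodness depends only on values on J
  have hcongr : ∀ (g g' : ι → Set ℕ) (J : Set ι), (∀ i ∈ J, g i = g' i) → Good v g J →
      Good v g' J := by
    intro g g' J hgg hg s t hs ht
    have : cell g' s t = cell g s t := by
      ext m
      constructor
      · rintro ⟨h1, h2⟩
        exact ⟨fun i hi => by rw [hgg i (hs i hi)]; exact h1 i hi,
          fun i hi => by rw [hgg i (ht i hi)]; exact h2 i hi⟩
      · rintro ⟨h1, h2⟩
        exact ⟨fun i hi => by rw [← hgg i (hs i hi)]; exact h1 i hi,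
          fun i hi => by rw [← hgg i (ht i hi)]; exact h2 i hi⟩
    rw [this]; exact hg s t hs ht
  have hempty : ∀ g : ι → Set ℕ, ((cell v ∅ ∅).Nonempty ↔ (cell g ∅ ∅).Infinite) := by
    intro g
    have e1 : cell v ∅ ∅ = Set.univ := by ext; simp [cell]
    have e2 : cell g ∅ ∅ = Set.univ := by ext; simp [cell]
    rw [e1, e2]
    exact ⟨fun _ => Set.infinite_univ, fun _ => Set.univ_nonempty⟩
  have main : ∀ x, Good v f (Set.Iic x) := by
    intro x
    induction x using WellFoundedLT.induction with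
    | _ x ih =>
      have hIio : Good v f (Set.Iio x) := by
        intro s t hs ht
        rcases (s ∪ t).eq_empty_or_nonempty with he | hne
        · rw [Finset.union_eq_empty] at he
          rw [he.1, he.2]; exact hempty f
        · set z := (s ∪ t).max' hne with hz
          have hzx : z < x := by
            rcases Finset.mem_union.1 ((s ∪ t).max'_mem hne) with h | h
            exacts [hs _ h, ht _ h]
          exact ih z hzx s t (fun i hi => (s ∪ t).le_max' i (Finset.mem_union_left _ hi))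
            (fun i hi => (s ∪ t).le_max' i (Finset.mem_union_right _ hi))
      have hIio' : Good v (fun z => if hz : z < x then f z else ∅) (Set.Iio x) :=
        hcongr f _ _ (fun i hi => by simp [Set.mem_Iio.1 hi]) hIio
      have hex := extend (hc x) hIio' x (by simp)
      have hfx : f x = hex.choose := by
        rw [hfix x]
        simp only [step]
        rw [dif_pos hex]
      have hgood := hex.choose_spec
      refine hcongr _ f (Set.Iic x) ?_ (hgood.mono (by rw [Set.Iio_insert]))
      intro i hi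
      rcases eq_or_lt_of_le (Set.mem_Iic.1 hi) with h | h
      · subst h; rw [Function.update_self, hfx]
      · rw [Function.update_of_ne h.ne]; simp [h]
  refine ⟨f, ?_⟩
  intro s t _ _
  rcases (s ∪ t).eq_empty_or_nonempty with he | hne
  · rw [Finset.union_eq_empty] at he
    rw [he.1, he.2]; exact hempty f
  · exact main ((s ∪ t).max' hne) s t
      (fun i hi => (s ∪ t).le_max' i (Finset.mem_union_left _ hi))
      (fun i hi => (s ∪ t).le_max' i (Finset.mem_union_right _ hi))

/-- Parovičenko's theorem: a family of at most `ℵ₁` sets embeds in `P(ℕ)` modulo finite. -/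
theorem exists_good {ι P : Type} [Nonempty P] (hι : Cardinal.mk ι = Cardinal.aleph 1)
    (v : ι → Set P) : ∃ f : ι → Set ℕ, Good v f Set.univ := by
  classical
  let κ := (Cardinal.aleph.{0} 1).ord.ToType
  have hκ : Cardinal.mk κ = Cardinal.mk ι := by
    rw [hι, Cardinal.mk_toType, Cardinal.card_ord]
  obtain ⟨e⟩ := Cardinal.eq.1 hκ
  obtain ⟨f, hf⟩ := exists_good_of_wellOrder (ι := κ) (P := P) (fun x => by
    have h := Cardinal.mk_Iio_toType_ord_lt x
    rw [← Set.countable_coe_iff, ← Cardinal.mk_le_aleph0_iff]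
    have h1 : Cardinal.mk (Set.Iio x) < Order.succ Cardinal.aleph0 := by
      rwa [Cardinal.succ_aleph0]
    exact Order.lt_succ_iff.1 h1) (v ∘ e)
  refine ⟨f ∘ e.symm, ?_⟩
  intro s t _ _
  have h := hf (s.map e.symm.toEmbedding) (t.map e.symm.toEmbedding) (fun _ _ => Set.mem_univ _)
    (fun _ _ => Set.mem_univ _)
  have e1 : cell (v ∘ e) (s.map e.symm.toEmbedding) (t.map e.symm.toEmbedding) = cell v s t := by
    ext p
    constructor
    · rintro ⟨h1, h2⟩
      exact ⟨fun i hi => by simpa using h1 (e.symm i) (Finset.mem_map_of_mem _ hi),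
        fun i hi => by simpa using h2 (e.symm i) (Finset.mem_map_of_mem _ hi)⟩
    · rintro ⟨h1, h2⟩
      refine ⟨fun i hi => ?_, fun i hi => ?_⟩
      · obtain ⟨a, ha, rfl⟩ := Finset.mem_map.1 hi
        simpa using h1 a ha
      · obtain ⟨a, ha, rfl⟩ := Finset.mem_map.1 hi
        simpa using h2 a ha
  have e2 : cell f (s.map e.symm.toEmbedding) (t.map e.symm.toEmbedding) =
      cell (f ∘ e.symm) s t := by
    ext p
    constructor
    · rintro ⟨h1, h2⟩
      exact ⟨fun i hi => h1 (e.symm i) (Finset.mem_map_of_mem _ hi),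
        fun i hi => h2 (e.symm i) (Finset.mem_map_of_mem _ hi)⟩
    · rintro ⟨h1, h2⟩
      refine ⟨fun i hi => ?_, fun i hi => ?_⟩
      · obtain ⟨a, ha, rfl⟩ := Finset.mem_map.1 hi
        exact h1 a ha
      · obtain ⟨a, ha, rfl⟩ := Finset.mem_map.1 hi
        exact h2 a ha
  rwa [e1, e2] at h

open scoped BoundedContinuousFunction

/-! ### `StoneCech ℕ` and ultrafilters -/

/-- The ultrafilter on `ℕ` attached to a point of `StoneCech ℕ`. -/
noncomputable def uf : StoneCech ℕ → Ultrafilter ℕ :=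
  stoneCechExtend (g := (pure : ℕ → Ultrafilter ℕ)) continuous_of_discreteTopology

/-- The point of `StoneCech ℕ` attached to an ultrafilter. -/
noncomputable def pt : Ultrafilter ℕ → StoneCech ℕ := Ultrafilter.extend stoneCechUnit

theorem continuous_uf : Continuous uf := continuous_stoneCechExtend _

theorem continuous_pt : Continuous pt := continuous_ultrafilter_extend _

theorem uf_unit (n : ℕ) : uf (stoneCechUnit n) = pure n := stoneCechExtend_stoneCechUnit _ n

theorem pt_pure (n : ℕ) : pt (pure n) = stoneCechUnit n := ultrafilter_extend_pure _ n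

theorem pt_uf (x : StoneCech ℕ) : pt (uf x) = x := by
  have : pt ∘ uf = id := by
    refine stoneCech_hom_ext (continuous_pt.comp continuous_uf) continuous_id ?_
    ext n
    simp only [Function.comp_apply, uf_unit, pt_pure, id]
  exact congrFun this x

theorem uf_pt (u : Ultrafilter ℕ) : uf (pt u) = u := by
  have : uf ∘ pt = id := by
    refine denseRange_pure.equalizer (continuous_uf.comp continuous_pt) continuous_id ?_
    ext n
    simp only [Function.comp_apply, uf_unit, pt_pure, id]
  exact congrFun this u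

theorem uf_injective : Function.Injective uf := fun x y h => by
  rw [← pt_uf x, h, pt_uf]

/-- Basic neighbourhoods of a point of `StoneCech ℕ`. -/
theorem exists_basic {O : Set (StoneCech ℕ)} (hO : IsOpen O) {x : StoneCech ℕ} (hx : x ∈ O) :
    ∃ B : Set ℕ, B ∈ uf x ∧ ∀ y, B ∈ uf y → y ∈ O := by
  have h1 : IsOpen (pt ⁻¹' O) := hO.preimage continuous_pt
  have h2 : uf x ∈ pt ⁻¹' O := by simpa [pt_uf] using hx
  obtain ⟨V, ⟨B, rfl⟩, hB1, hB2⟩ := ultrafilterBasis_is_basis.exists_subset_of_mem_open h2 h1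
  refine ⟨B, hB1, fun y hy => ?_⟩
  have := hB2 hy
  simpa [pt_uf] using this

theorem mem_closure_image (A : Set ℕ) (x : StoneCech ℕ) :
    x ∈ closure ((stoneCechUnit : ℕ → StoneCech ℕ) '' A) ↔ A ∈ uf x := by
  constructor
  · intro h
    have hc : IsClosed (uf ⁻¹' {u | A ∈ u}) := (ultrafilter_isClosed_basic A).preimage continuous_uf
    refine closure_minimal ?_ hc h
    rintro _ ⟨n, hn, rfl⟩
    simp only [Set.mem_preimage, Set.mem_ofPred_eq, uf_unit]
    exact hn
  · intro h
    rw [mem_closure_iff]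
    intro O hO hx
    obtain ⟨B, hB, hBO⟩ := exists_basic hO hx
    obtain ⟨n, hnA, hnB⟩ := (uf x).nonempty_of_mem (Filter.inter_mem h hB)
    exact ⟨stoneCechUnit n, hBO _ (by rw [uf_unit]; exact hnB), n, hnA, rfl⟩

theorem not_mem_range_iff (x : StoneCech ℕ) :
    x ∉ Set.range (stoneCechUnit : ℕ → StoneCech ℕ) ↔ (uf x : Filter ℕ) ≤ Filter.cofinite := by
  constructor
  · intro h
    rcases (uf x).le_cofinite_or_eq_pure with h1 | ⟨n, hn⟩
    · exact h1
    · exact (h ⟨n, by rw [← pt_uf x, hn, pt_pure]⟩).elim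
  · rintro h ⟨n, rfl⟩
    rw [uf_unit] at h
    have : ({n}ᶜ : Set ℕ) ∈ (pure n : Ultrafilter ℕ) := h (Set.finite_singleton n).compl_mem_cofinite
    exact this rfl

/-- The indicator function of (the closure of) `S`, as a continuous function on `StoneCech ℕ`. -/
noncomputable def ind (S : Set ℕ) : C(StoneCech ℕ, ℝ) where
  toFun x := Set.indicator {x | S ∈ uf x} (fun _ => (1 : ℝ)) x
  continuous_toFun := by
    refine IsClopen.continuous_indicator ?_ continuous_const
    exact ⟨(ultrafilter_isClosed_basic S).preimage continuous_uf,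
      (ultrafilter_isOpen_basic S).preimage continuous_uf⟩

open Classical in
theorem ind_apply (S : Set ℕ) (x : StoneCech ℕ) : ind S x = if S ∈ uf x then 1 else 0 := by
  change Set.indicator {x | S ∈ uf x} (fun _ => (1 : ℝ)) x = _
  rw [Set.indicator_apply]; rfl

/-! ### The homomorphism and the dual map -/

/-- `n`-th piece of a set `A` of natural numbers. -/
def piece (A : Set ℕ) (n : ℕ) : Set ℕ := Nat.nth (· ∈ A) '' {k | (Nat.unpair k).1 = n}

theorem piece_subset {A : Set ℕ} (hA : A.Infinite) (n : ℕ) : piece A n ⊆ A := by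
  rintro _ ⟨k, -, rfl⟩
  exact Nat.nth_mem_of_infinite hA k

theorem piece_infinite {A : Set ℕ} (hA : A.Infinite) (n : ℕ) : (piece A n).Infinite := by
  refine Set.Infinite.image (Nat.nth_injective hA).injOn ?_
  refine (Set.infinite_range_of_injective (f := fun l => Nat.pair n l) ?_).mono ?_
  · intro a b h
    have := congrArg Nat.unpair h
    simpa using this
  · rintro _ ⟨l, rfl⟩
    simp

theorem piece_disjoint {A : Set ℕ} (hA : A.Infinite) {m n : ℕ} (h : m ≠ n) :
    Disjoint (piece A m) (piece A n) := by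
  rw [Set.disjoint_left]
  rintro _ ⟨k, hk, rfl⟩ ⟨l, hl, hkl⟩
  have := Nat.nth_injective hA hkl
  subst this
  exact h (hk.symm.trans hl)

/-- Nonprincipal ultrafilters on `ℕ`. -/
abbrev NP : Type := {u : Ultrafilter ℕ // (u : Filter ℕ) ≤ Filter.cofinite}

instance : Nonempty NP := ⟨⟨Filter.hyperfilter ℕ, Filter.hyperfilter_le_cofinite⟩⟩

/-- The family of sets to be represented: the clopen sets and a certain open set below each
clopen set. -/
def fam : Set ℕ ⊕ Set ℕ → Set NP
  | Sum.inl S => {u | S ∈ u.1}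
  | Sum.inr A => {u | ∃ n, piece A n ∈ u.1}

/-- An infinite set belongs to some nonprincipal ultrafilter. -/
theorem exists_np {S : Set ℕ} (hS : S.Infinite) : ∃ u : NP, S ∈ u.1 := by
  have : (Filter.cofinite ⊓ 𝓟 S).NeBot := by
    rw [Filter.cofinite_inf_principal_neBot_iff]; exact hS
  refine ⟨⟨Ultrafilter.of (Filter.cofinite ⊓ 𝓟 S), (Ultrafilter.of_le _).trans inf_le_left⟩, ?_⟩
  exact (Ultrafilter.of_le (Filter.cofinite ⊓ 𝓟 S)) (Filter.mem_inf_of_right (Filter.mem_principal_self S))

/-- What the representation gives at a nonprincipal ultrafilter `u`. -/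
theorem not_forall_of_empty {f : Set ℕ ⊕ Set ℕ → Set ℕ} (hf : Good fam f Set.univ)
    (s t : Finset (Set ℕ ⊕ Set ℕ)) (h : ¬ (cell fam s t).Nonempty) (u : NP)
    (hs : ∀ i ∈ s, f i ∈ u.1) (ht : ∀ i ∈ t, f i ∉ u.1) : False := by
  have hfin : (cell f s t).Finite := by
    rw [← Set.not_infinite, ← hf s t (fun _ _ => Set.mem_univ _) (fun _ _ => Set.mem_univ _)]
    exact h
  have hmem : cell f s t ∈ u.1 := by
    have h1 : (⋂ i ∈ s, f i) ∈ (u.1 : Filter ℕ) := (Filter.biInter_finset_mem s).2 hs
    have h2 : (⋂ i ∈ t, (f i)ᶜ) ∈ (u.1 : Filter ℕ) := (Filter.biInter_finset_mem t).2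
      (fun i hi => Ultrafilter.compl_mem_iff_notMem.2 (ht i hi))
    filter_upwards [h1, h2] with n hn1 hn2
    refine ⟨fun i hi => ?_, fun i hi => ?_⟩
    · exact Set.mem_iInter₂.1 hn1 i hi
    · exact Set.mem_iInter₂.1 hn2 i hi
  have hcompl : (cell f s t)ᶜ ∈ u.1 := u.2 hfin.compl_mem_cofinite
  exact (Ultrafilter.compl_notMem_iff.2 hmem) hcompl


section Dual

variable {f : Set ℕ ⊕ Set ℕ → Set ℕ} (hf : Good fam f Set.univ)

include hf

/-- Monotonicity type consequences of `not_forall_of_empty`. -/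
theorem mem_of_forall (s t : Finset (Set ℕ ⊕ Set ℕ)) (u : NP) (hs : ∀ i ∈ s, f i ∈ u.1)
    (h : ∀ w : NP, (∀ i ∈ s, w ∈ fam i) → ∃ i ∈ t, w ∈ fam i) : ∃ i ∈ t, f i ∈ u.1 := by
  by_contra hcon
  push Not at hcon
  refine not_forall_of_empty hf s t ?_ u hs hcon
  rintro ⟨w, hw1, hw2⟩
  obtain ⟨i, hi, hwi⟩ := h w hw1
  exact hw2 i hi hwi

/-- The dual map on ultrafilters. -/
theorem exists_dual (u : NP) : ∃ w : NP, ∀ S : Set ℕ, S ∈ w.1 ↔ f (Sum.inl S) ∈ u.1 := by
  classical
  let F : Filter ℕ :=
    { sets := {S | f (Sum.inl S) ∈ u.1}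
      univ_sets := by
        obtain ⟨i, hi, h⟩ := mem_of_forall hf ∅ {Sum.inl Set.univ} u (by simp)
          (fun w _ => ⟨_, Finset.mem_singleton_self _, Filter.univ_mem⟩)
        rw [Finset.mem_singleton] at hi; subst hi; exact h
      sets_of_superset := by
        intro S T hS hST
        obtain ⟨i, hi, h⟩ := mem_of_forall hf {Sum.inl S} {Sum.inl T} u (by simpa using hS)
          (fun w hw => ⟨_, Finset.mem_singleton_self _,
            Filter.mem_of_superset (hw (Sum.inl S) (by simp)) hST⟩)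
        rw [Finset.mem_singleton] at hi; subst hi; exact h
      inter_sets := by
        intro S T hS hT
        obtain ⟨i, hi, h⟩ := mem_of_forall hf {Sum.inl S, Sum.inl T} {Sum.inl (S ∩ T)} u
          (by
            intro i hi
            rw [Finset.mem_insert, Finset.mem_singleton] at hi
            rcases hi with rfl | rfl
            exacts [hS, hT])
          (fun w hw => ⟨_, Finset.mem_singleton_self _,
            Filter.inter_mem (hw (Sum.inl S) (by simp)) (hw (Sum.inl T) (by simp))⟩)
        rw [Finset.mem_singleton] at hi; subst hi; exact h }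
  have hF : ∀ S, S ∈ F ↔ f (Sum.inl S) ∈ u.1 := fun S => Iff.rfl
  have hult : ∀ S, Sᶜ ∉ F ↔ S ∈ F := by
    intro S
    rw [hF, hF]
    constructor
    · intro h
      obtain ⟨i, hi, h'⟩ := mem_of_forall hf ∅ {Sum.inl S, Sum.inl Sᶜ} u (by simp)
        (fun w _ => by
          rcases w.1.mem_or_compl_mem S with hw | hw
          · exact ⟨Sum.inl S, by simp, hw⟩
          · exact ⟨Sum.inl Sᶜ, by simp, hw⟩)
      rw [Finset.mem_insert, Finset.mem_singleton] at hi
      rcases hi with rfl | rfl
      · exact h'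
      · exact (h h').elim
    · intro h h'
      obtain ⟨i, hi, -⟩ := mem_of_forall hf {Sum.inl S, Sum.inl Sᶜ} ∅ u
        (by
          intro i hi
          rw [Finset.mem_insert, Finset.mem_singleton] at hi
          rcases hi with rfl | rfl
          exacts [h, h'])
        (fun w hw => by
          have h1 : S ∈ w.1 := hw (Sum.inl S) (by simp)
          have h2 : Sᶜ ∈ w.1 := hw (Sum.inl Sᶜ) (by simp)
          exact ((Ultrafilter.compl_notMem_iff.2 h1) h2).elim)
      simp at hi
  refine ⟨⟨Ultrafilter.ofComplNotMemIff F hult, ?_⟩, fun S => Iff.rfl⟩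
  intro S hS
  change S ∈ F
  rw [hF]
  obtain ⟨i, hi, h⟩ := mem_of_forall hf ∅ {Sum.inl S} u (by simp)
    (fun w _ => ⟨_, Finset.mem_singleton_self _, w.2 hS⟩)
  rw [Finset.mem_singleton] at hi; subst hi; exact h

/-- The dual map is onto. -/
theorem dual_surjective (w : NP) : ∃ u : NP, ∀ S : Set ℕ, S ∈ w.1 → f (Sum.inl S) ∈ u.1 := by
  classical
  have hinf : ∀ S ∈ w.1, (f (Sum.inl S)).Infinite := by
    intro S hS
    have := (hf {Sum.inl S} ∅ (fun _ _ => Set.mem_univ _) (fun _ _ => Set.mem_univ _)).1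
      ⟨w, by simpa [fam] using hS, by simp⟩
    refine this.mono ?_
    intro n hn
    exact hn.1 _ (Finset.mem_singleton_self _)
  have hinter : ∀ S T : Set ℕ, ((f (Sum.inl S) ∩ f (Sum.inl T)) \ f (Sum.inl (S ∩ T))).Finite := by
    intro S T
    have := (hf {Sum.inl S, Sum.inl T} {Sum.inl (S ∩ T)} (fun _ _ => Set.mem_univ _)
      (fun _ _ => Set.mem_univ _)).not.1 (by
        rintro ⟨v, hv1, hv2⟩
        exact hv2 _ (Finset.mem_singleton_self _)
          (Filter.inter_mem (hv1 (Sum.inl S) (by simp)) (hv1 (Sum.inl T) (by simp))))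
    rw [Set.not_infinite] at this
    refine this.subset ?_
    rintro n ⟨⟨h1, h2⟩, h3⟩
    refine ⟨fun i hi => ?_, fun i hi => ?_⟩
    · rw [Finset.mem_insert, Finset.mem_singleton] at hi
      rcases hi with rfl | rfl
      exacts [h1, h2]
    · rw [Finset.mem_singleton] at hi
      subst hi; exact h3
  let F : Filter ℕ :=
    { sets := {X | ∃ S ∈ w.1, (f (Sum.inl S) \ X).Finite}
      univ_sets := ⟨Set.univ, Filter.univ_mem, by simp⟩
      sets_of_superset := by
        rintro X Y ⟨S, hS, hX⟩ hXY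
        exact ⟨S, hS, hX.subset (Set.sdiff_subset_sdiff_right hXY)⟩
      inter_sets := by
        rintro X Y ⟨S, hS, hX⟩ ⟨T, hT, hY⟩
        refine ⟨S ∩ T, Filter.inter_mem hS hT, ?_⟩
        have h1 : (f (Sum.inl (S ∩ T)) \ f (Sum.inl S)).Finite := by
          have := (hf {Sum.inl (S ∩ T)} {Sum.inl S} (fun _ _ => Set.mem_univ _)
            (fun _ _ => Set.mem_univ _)).not.1 (by
              rintro ⟨v, hv1, hv2⟩
              exact hv2 _ (Finset.mem_singleton_self _)
                (Filter.mem_of_superset (hv1 (Sum.inl (S ∩ T)) (by simp)) Set.inter_subset_left))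
          rw [Set.not_infinite] at this
          refine this.subset ?_
          rintro n ⟨h1, h2⟩
          exact ⟨fun i hi => by rw [Finset.mem_singleton] at hi; subst hi; exact h1,
            fun i hi => by rw [Finset.mem_singleton] at hi; subst hi; exact h2⟩
        have h2 : (f (Sum.inl (S ∩ T)) \ f (Sum.inl T)).Finite := by
          have := (hf {Sum.inl (S ∩ T)} {Sum.inl T} (fun _ _ => Set.mem_univ _)
            (fun _ _ => Set.mem_univ _)).not.1 (by
              rintro ⟨v, hv1, hv2⟩
              exact hv2 _ (Finset.mem_singleton_self _)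
                (Filter.mem_of_superset (hv1 (Sum.inl (S ∩ T)) (by simp)) Set.inter_subset_right))
          rw [Set.not_infinite] at this
          refine this.subset ?_
          rintro n ⟨h1, h2⟩
          exact ⟨fun i hi => by rw [Finset.mem_singleton] at hi; subst hi; exact h1,
            fun i hi => by rw [Finset.mem_singleton] at hi; subst hi; exact h2⟩
        refine ((h1.union h2).union (hX.union hY)).subset ?_
        rintro n ⟨hn1, hn2⟩
        by_cases hnS : n ∈ f (Sum.inl S)
        · by_cases hnT : n ∈ f (Sum.inl T)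
          · right
            by_cases hnX : n ∈ X
            · right; exact ⟨hnT, fun hnY => hn2 ⟨hnX, hnY⟩⟩
            · left; exact ⟨hnS, hnX⟩
          · left; right; exact ⟨hn1, hnT⟩
        · left; left; exact ⟨hn1, hnS⟩ }
  have hne : F.NeBot := by
    rw [Filter.neBot_iff, Ne, ← Filter.empty_mem_iff_bot]
    rintro ⟨S, hS, hfin⟩
    rw [Set.sdiff_empty] at hfin
    exact hinf S hS hfin
  refine ⟨⟨Ultrafilter.of F, (Ultrafilter.of_le F).trans ?_⟩, fun S hS => ?_⟩
  · intro X hX
    exact ⟨Set.univ, Filter.univ_mem, (Filter.mem_cofinite.1 hX).subset (fun n hn => hn.2)⟩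
  · exact (Ultrafilter.of_le F) ⟨S, hS, by simp⟩

end Dual


/-- The cardinality of the index set under CH. -/
theorem mk_index (hCH : Cardinal.aleph.{0} 1 = Cardinal.continuum.{0}) :
    Cardinal.mk (Set ℕ ⊕ Set ℕ) = Cardinal.aleph 1 := by
  rw [hCH]
  simp

/-- Under CH there is a continuous surjection of `ℕ*` onto itself which has no local continuous
section: no closed set is mapped homeomorphically by it onto a clopen set `A*`. -/
theorem exists_surjection (hCH : Cardinal.aleph.{0} 1 = Cardinal.continuum.{0}) (X : Set (StoneCech ℕ))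
    (hX : X = (Set.range (stoneCechUnit : ℕ → StoneCech ℕ))ᶜ) :
    ∃ Φ : C(X, X), Function.Surjective Φ ∧
      ∀ (A : Set ℕ) (F : Set X) (r : ℝ), A.Infinite → r ≠ 0 →
        ∀ ψ : F ≃ₜ {x : X | (x.1 : StoneCech ℕ) ∈
            closure ((stoneCechUnit : ℕ → StoneCech ℕ) '' A)},
          ¬ ∀ S : Set ℕ, S ⊆ A → ∀ x : F, ind S (Φ x.1).1 = r * ind S ((ψ x).1).1 := by
  classical
  obtain ⟨f, hf⟩ := exists_good (mk_index hCH) fam
  have hXmem : ∀ x : StoneCech ℕ, x ∈ X ↔ (uf x : Filter ℕ) ≤ Filter.cofinite := by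
    intro x; rw [hX, Set.mem_compl_iff, not_mem_range_iff]
  choose D hD using exists_dual hf
  let toNP : X → NP := fun x => ⟨uf x.1, (hXmem x.1).1 x.2⟩
  let ofNP : NP → X := fun u => ⟨pt u.1, (hXmem _).2 (by rw [uf_pt]; exact u.2)⟩
  have huf : ∀ u : NP, uf (ofNP u).1 = u.1 := fun u => uf_pt u.1
  have hof : ∀ x : X, ofNP (toNP x) = x := fun x => Subtype.ext (pt_uf x.1)
  have hcont : Continuous (fun x : X => ofNP (D (toNP x))) := by
    refine Continuous.subtype_mk ?_ _
    refine continuous_pt.comp ?_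
    rw [ultrafilterBasis_is_basis.continuous_iff]
    rintro _ ⟨S, rfl⟩
    have : (fun x : X => (D (toNP x)).1) ⁻¹' {u | S ∈ u} =
        (fun x : X => uf x.1) ⁻¹' {u | f (Sum.inl S) ∈ u} := by
      ext x
      exact hD (toNP x) S
    rw [this]
    exact (ultrafilter_isOpen_basic _).preimage (continuous_uf.comp continuous_subtype_val)
  let Φ : C(X, X) := ⟨fun x => ofNP (D (toNP x)), hcont⟩
  have hΦ : ∀ (x : X) (S : Set ℕ), S ∈ uf (Φ x).1 ↔ f (Sum.inl S) ∈ uf x.1 := by
    intro x S
    change S ∈ uf (ofNP (D (toNP x))).1 ↔ _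
    rw [huf]
    exact hD (toNP x) S
  refine ⟨Φ, ?_, ?_⟩
  · -- surjectivity
    intro y
    obtain ⟨u, hu⟩ := dual_surjective hf (toNP y)
    refine ⟨ofNP u, ?_⟩
    apply Subtype.ext
    apply uf_injective
    have h1 : ∀ S ∈ uf y.1, S ∈ uf (Φ (ofNP u)).1 := by
      intro S hS
      rw [hΦ, huf]
      exact hu S hS
    exact Ultrafilter.coe_injective (Ultrafilter.unique (uf y.1) (fun S hS => h1 S hS) : (_ : Filter ℕ) = _)
  · intro A F r hA hr ψ H
    let Y : Set X := {x : X | (x.1 : StoneCech ℕ) ∈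
      closure ((stoneCechUnit : ℕ → StoneCech ℕ) '' A)}
    have hYmem : ∀ y : Y, A ∈ uf y.1.1 := fun y => (mem_closure_image A _).1 y.2
    -- points of `Y` from ultrafilters
    have mkY : ∀ u : NP, A ∈ u.1 → ∃ y : Y, uf y.1.1 = u.1 := by
      intro u hu
      exact ⟨⟨ofNP u, (mem_closure_image A _).2 (by rw [huf]; exact hu)⟩, huf u⟩
    -- `r = 1`
    have hr1 : r = 1 := by
      obtain ⟨u, hu⟩ := exists_np hA
      obtain ⟨y, hy⟩ := mkY u hu
      have h := H A subset_rfl (ψ.symm y)
      rw [ψ.apply_symm_apply, ind_apply, ind_apply, if_pos (hYmem y)] at h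
      by_cases hc : A ∈ uf (Φ (ψ.symm y).1).1
      · rw [if_pos hc] at h; linarith
      · rw [if_neg hc] at h; exact (hr (by linarith)).elim
    have hEq : ∀ (x : F) (S : Set ℕ), S ⊆ A → (S ∈ uf (Φ x.1).1 ↔ S ∈ uf (ψ x).1.1) := by
      intro x S hS
      have h := H S hS x
      rw [hr1, one_mul, ind_apply, ind_apply] at h
      by_cases h1 : S ∈ uf (Φ x.1).1 <;> by_cases h2 : S ∈ uf (ψ x).1.1 <;> simp_all
    -- the clopen set `E`
    set E : Set Y := {y | f (Sum.inr A) ∈ uf (ψ.symm y).1.1} with hE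
    have hval : Continuous (fun y : Y => uf (ψ.symm y).1.1) :=
      continuous_uf.comp (continuous_subtype_val.comp
        (continuous_subtype_val.comp ψ.symm.continuous))
    have hEopen : IsOpen E := (ultrafilter_isOpen_basic _).preimage hval
    have hEclosed : IsClosed E := (ultrafilter_isClosed_basic _).preimage hval
    have hind : Topology.IsInducing (fun y : Y => y.1.1) :=
      Topology.IsInducing.subtypeVal.comp Topology.IsInducing.subtypeVal
    have hbasic : ∀ (O : Set Y), IsOpen O → ∀ y ∈ O, ∃ B : Set ℕ, B ∈ uf y.1.1 ∧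
        ∀ z : Y, B ∈ uf z.1.1 → z ∈ O := by
      intro O hO y hy
      obtain ⟨O', hO', rfl⟩ := hind.isOpen_iff.1 hO
      obtain ⟨B, hB1, hB2⟩ := exists_basic hO' hy
      exact ⟨B, hB1, fun z hz => hB2 _ hz⟩
    have claim1 : ∀ (y : Y) (n : ℕ), piece A n ∈ uf y.1.1 → y ∈ E := by
      intro y n hn
      have h1 : piece A n ∈ uf (Φ (ψ.symm y).1).1 := by
        rw [hEq _ _ (piece_subset hA n), ψ.apply_symm_apply]; exact hn
      rw [hΦ] at h1
      obtain ⟨i, hi, h⟩ := mem_of_forall hf {Sum.inl (piece A n)} {Sum.inr A}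
        (toNP (ψ.symm y).1) (by
          intro i hi
          rw [Finset.mem_singleton] at hi; subst hi; exact h1)
        (fun w hw => ⟨_, Finset.mem_singleton_self _, n, hw _ (Finset.mem_singleton_self _)⟩)
      rw [Finset.mem_singleton] at hi; subst hi; exact h
    have claim2 : ∀ (y : Y) (c : Set ℕ), y ∈ E → c ⊆ A → (∀ n, (c ∩ piece A n).Finite) →
        c ∉ uf y.1.1 := by
      intro y c hyE hcA hfin hc
      have h1 : c ∈ uf (Φ (ψ.symm y).1).1 := by
        rw [hEq _ _ hcA, ψ.apply_symm_apply]; exact hc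
      obtain ⟨i, hi, h⟩ := mem_of_forall hf {Sum.inr A} {Sum.inl cᶜ}
        (toNP (ψ.symm y).1) (by
          intro i hi
          rw [Finset.mem_singleton] at hi; subst hi; exact hyE)
        (fun w hw => by
          obtain ⟨n, hn⟩ := hw _ (Finset.mem_singleton_self _)
          refine ⟨_, Finset.mem_singleton_self _, ?_⟩
          change cᶜ ∈ w.1
          have h2 : (c ∩ piece A n)ᶜ ∈ w.1 := w.2 (hfin n).compl_mem_cofinite
          filter_upwards [hn, h2] with m hm1 hm2 hm3
          exact hm2 ⟨hm3, hm1⟩)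
      rw [Finset.mem_singleton] at hi; subst hi
      have h3 : cᶜ ∈ uf (Φ (ψ.symm y).1).1 := by rw [hΦ]; exact h
      exact (Ultrafilter.compl_notMem_iff.2 h1) h3
    -- ultrafilters concentrating on the pieces and their limit
    choose y hy using fun n => exists_np (piece_infinite hA n)
    let L : Ultrafilter ℕ := (Filter.hyperfilter ℕ).bind (fun n => (y n).1)
    have hL : ∀ S : Set ℕ, S ∈ L ↔ ∀ᶠ n in (Filter.hyperfilter ℕ : Filter ℕ), S ∈ (y n).1 :=
      fun S => Filter.mem_bind'
    have hLNP : (L : Filter ℕ) ≤ Filter.cofinite := by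
      intro S hS
      change S ∈ L
      rw [hL]
      exact Filter.Eventually.of_forall (fun n => (y n).2 hS)
    have hAy : ∀ n, A ∈ (y n).1 := fun n => Filter.mem_of_superset (hy n) (piece_subset hA n)
    have hAL : A ∈ L := by
      rw [hL]
      exact Filter.Eventually.of_forall hAy
    obtain ⟨yL, hyL⟩ := mkY ⟨L, hLNP⟩ hAL
    have claim3 : yL ∈ E := by
      by_contra hcon
      obtain ⟨B, hB1, hB2⟩ := hbasic Eᶜ hEclosed.isOpen_compl yL hcon
      rw [hyL] at hB1
      obtain ⟨n, hn⟩ := ((hL B).1 hB1).exists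
      obtain ⟨z, hz⟩ := mkY (y n) (hAy n)
      exact hB2 z (by rw [hz]; exact hn) (claim1 z n (by rw [hz]; exact hy n))
    obtain ⟨B, hB1, hB2⟩ := hbasic E hEopen yL claim3
    rw [hyL] at hB1
    have hN : {n | B ∈ (y n).1}.Infinite := by
      intro hfin
      have h1 : {n | B ∈ (y n).1} ∈ Filter.hyperfilter ℕ := (hL B).1 hB1
      exact Filter.notMem_hyperfilter_of_finite hfin h1
    have hc : ∀ n, ∃ m ∈ piece A n, B ∈ (y n).1 → m ∈ B := by
      intro n
      by_cases hn : B ∈ (y n).1
      · obtain ⟨m, hm1, hm2⟩ := (y n).1.nonempty_of_mem (Filter.inter_mem (hy n) hn)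
        exact ⟨m, hm1, fun _ => hm2⟩
      · obtain ⟨m, hm⟩ := (piece_infinite hA n).nonempty
        exact ⟨m, hm, fun h => (hn h).elim⟩
    choose c hc1 hc2 using hc
    have hcinj : Function.Injective c := by
      intro m n hmn
      by_contra hne
      exact Set.disjoint_left.1 (piece_disjoint hA hne) (hc1 m) (hmn ▸ hc1 n)
    set C : Set ℕ := c '' {n | B ∈ (y n).1} with hC
    have hCinf : C.Infinite := hN.image hcinj.injOn
    obtain ⟨z, hz⟩ := exists_np hCinf
    have hCA : C ⊆ A := by
      rintro _ ⟨n, -, rfl⟩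
      exact piece_subset hA n (hc1 n)
    have hCB : C ⊆ B := by
      rintro _ ⟨n, hn, rfl⟩
      exact hc2 n hn
    obtain ⟨yz, hyz⟩ := mkY z (Filter.mem_of_superset hz hCA)
    have hzE : yz ∈ E := hB2 yz (by rw [hyz]; exact Filter.mem_of_superset hz hCB)
    refine claim2 yz C hzE hCA (fun n => ?_) (by rw [hyz]; exact hz)
    refine (Set.finite_singleton (c n)).subset ?_
    rintro _ ⟨⟨m, -, rfl⟩, hm⟩
    rw [Set.mem_singleton_iff]
    by_contra hne
    have hmn : m ≠ n := fun h => hne (by rw [h])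
    exact Set.disjoint_left.1 (piece_disjoint hA hmn) (hc1 m) hm

/-- The operator of composition with the map of `exists_surjection`. -/
theorem main (hCH : Cardinal.aleph.{0} 1 = Cardinal.continuum.{0}) (X : Set (StoneCech ℕ))
    (hX : X = (Set.range (stoneCechUnit : ℕ → StoneCech ℕ))ᶜ) :
    ∃ T : (X →ᵇ ℝ) →L[ℝ] (X →ᵇ ℝ), (∀ f, ‖T f‖ = ‖f‖) ∧ (∀ f g, T (f * g) = T f * T g) ∧
      ¬ ∃ (A : Set ℕ) (F : Set X) (r : ℝ), A.Infinite ∧ IsClosed F ∧ r ≠ 0 ∧
        ∃ ψ : F ≃ₜ {x : X | (x.1 : StoneCech ℕ) ∈ closure ((stoneCechUnit : ℕ → StoneCech ℕ) '' A)},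
          ∀ G : C(StoneCech ℕ, ℝ),
            (∀ n : ℕ, n ∉ A → G (stoneCechUnit n) = 0) →
            ∀ x : F,
              T ((BoundedContinuousFunction.mkOfCompact G).compContinuous
                  ⟨Subtype.val, continuous_subtype_val⟩) x.1
                = r * G ((ψ x).1).1 := by
  obtain ⟨Φ, hΦ, h⟩ := exists_surjection hCH X hX
  refine ⟨BoundedContinuousFunction.compContinuousCLM ℝ ℝ Φ, ?_, ?_, ?_⟩
  · intro f
    refine le_antisymm (BoundedContinuousFunction.norm_compContinuous_le f Φ) ?_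
    refine (BoundedContinuousFunction.norm_le (norm_nonneg _)).2 (fun x => ?_)
    obtain ⟨y, rfl⟩ := hΦ x
    exact BoundedContinuousFunction.norm_coe_le_norm
      (BoundedContinuousFunction.compContinuousCLM ℝ ℝ Φ f) y
  · intro f g
    ext x
    rfl
  · rintro ⟨A, F, r, hA, -, hr, ψ, H⟩
    refine h A F r hA hr ψ (fun S hS x => ?_)
    exact H (ind S) (fun n hn => by
      classical
      rw [ind_apply, uf_unit, if_neg]
      intro hmem
      exact hn (hS hmem)) x

end Pool.Agent.Lib.MP_f07f3c_an
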